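import Pool.Agent.W128.VA.Stm

/-!
# Project VA, VA-DONG: Dong's lemma (helper85)
-/

set_option autoImplicit false
set_option maxHeartbeats 4000000

namespace Pool.Agent.W85.VA.Dong

open Finset Pool.Agent.W128.VA

/-- triples of indices -/
abbrev G3 : Type := ℤ × ℤ × ℤ

section shift

variable {M : Type} [AddCommGroup M] [Module ℂ M]

/-- the shift operator -/
def sh (M : Type) [AddCommGroup M] [Module ℂ M] (e : G3) : Module.End ℂ (G3 → M) :=
  LinearMap.funLeft ℂ M (fun x => x + e)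

theorem sh_apply (e : G3) (F : G3 → M) (x : G3) : sh M e F x = F (x + e) := rfl

theorem sh_mul (e e' : G3) : sh M e * sh M e' = sh M (e + e') :=
  LinearMap.ext fun F => funext fun x => by
    rw [Module.End.mul_apply, sh_apply, sh_apply, sh_apply, add_assoc]

theorem sh_comm (e e' : G3) : Commute (sh M e) (sh M e') := by
  unfold Commute SemiconjBy
  rw [sh_mul, sh_mul, add_comm]

theorem sh_pow (e : G3) (n : ℕ) : sh M e ^ n = sh M (n • e) := by
  induction n with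
  | zero =>
    rw [pow_zero, zero_smul]
    exact LinearMap.ext fun F => funext fun x => by rw [sh_apply, add_zero]; rfl
  | succ n ih => rw [pow_succ, ih, sh_mul, succ_nsmul]

theorem sub_pow_apply (e e' : G3) (N : ℕ) (F : G3 → M) (x : G3) :
    ((sh M e - sh M e') ^ N) F x = ∑ j ∈ range (N + 1), ((-1 : ℂ) ^ j * (N.choose j : ℂ)) •
      F (x + (((N : ℤ) - j) • e + (j : ℤ) • e')) := by
  have h1 : sh M e - sh M e' = (-1 : ℂ) • sh M e' + sh M e := by
    refine LinearMap.ext fun F => funext fun x => ?_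
    rw [LinearMap.sub_apply, LinearMap.add_apply, LinearMap.smul_apply, Pi.sub_apply, Pi.add_apply,
      Pi.smul_apply, neg_smul, one_smul]
    abel
  have hc : Commute ((-1 : ℂ) • sh M e') (sh M e) := (sh_comm e' e).smul_left _
  rw [h1, hc.add_pow N, LinearMap.sum_apply, Finset.sum_apply]
  apply sum_congr rfl
  intro j hj
  have hj' : j ≤ N := by
    rw [mem_range] at hj
    omega
  rw [smul_pow, sh_pow, sh_pow, smul_mul_assoc, sh_mul, Module.End.mul_apply,
    Module.End.natCast_apply, LinearMap.smul_apply, Pi.smul_apply, map_nsmul, Pi.smul_apply,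
    sh_apply, mul_smul]
  congr 1
  rw [← Nat.cast_smul_eq_nsmul ℂ]
  congr 2
  have h4 : ((N - j : ℕ) : ℤ) = (N : ℤ) - j := by
    rw [Nat.cast_sub hj']
  rw [← h4, natCast_zsmul, natCast_zsmul, add_comm (j • e')]

end shift

/-- the unit vectors -/
def e1 : G3 := (1, 0, 0)
/-- the unit vectors -/
def e2 : G3 := (0, 1, 0)
/-- the unit vectors -/
def e3 : G3 := (0, 0, 1)

section kill

variable {W : Type} [AddCommGroup W] [Module ℂ W]

theorem killZ (a c : ℤ → Module.End ℂ W) (N : ℕ) (h : Loc a c N) (T : ℤ → Module.End ℂ W)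
    (u : ℤ → W) (s : ℤ) (F : G3 → W)
    (hF : ∀ x : G3, F x = T x.2.1 (a (x.1 + s) (c x.2.2 (u x.2.1)) -
      c x.2.2 (a (x.1 + s) (u x.2.1)))) :
    ((sh W e1 - sh W e3) ^ N) F = 0 := by
  funext x
  rw [sub_pow_apply]
  have h1 := h (x.1 + s) x.2.2 (u x.2.1)
  have h2 := congrArg (T x.2.1) h1
  rw [map_sum, map_zero] at h2
  rw [Pi.zero_apply, ← h2]
  apply sum_congr rfl
  intro j _
  rw [map_smul, hF]
  congr 1
  have i1 : (x + (((N : ℤ) - j) • e1 + (j : ℤ) • e3)).2.1 = x.2.1 := by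
    simp [e1, e3]
  have i2 : (x + (((N : ℤ) - j) • e1 + (j : ℤ) • e3)).1 + s = x.1 + s + N - j := by
    simp [e1, e3]
    ring
  have i3 : (x + (((N : ℤ) - j) • e1 + (j : ℤ) • e3)).2.2 = x.2.2 + j := by
    simp [e1, e3]
  rw [i1, i2, i3]

theorem killY (b c : ℤ → Module.End ℂ W) (N : ℕ) (h : Loc b c N) (T : ℤ → Module.End ℂ W)
    (u : ℤ → W) (s : ℤ) (F : G3 → W)
    (hF : ∀ x : G3, F x = T x.1 (b (x.2.1 + s) (c x.2.2 (u x.1)) -
      c x.2.2 (b (x.2.1 + s) (u x.1)))) :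
    ((sh W e2 - sh W e3) ^ N) F = 0 := by
  funext x
  rw [sub_pow_apply]
  have h1 := h (x.2.1 + s) x.2.2 (u x.1)
  have h2 := congrArg (T x.1) h1
  rw [map_sum, map_zero] at h2
  rw [Pi.zero_apply, ← h2]
  apply sum_congr rfl
  intro j _
  rw [map_smul, hF]
  congr 1
  have i1 : (x + (((N : ℤ) - j) • e2 + (j : ℤ) • e3)).1 = x.1 := by
    simp [e2, e3]
  have i2 : (x + (((N : ℤ) - j) • e2 + (j : ℤ) • e3)).2.1 + s = x.2.1 + s + N - j := by
    simp [e2, e3]
    ring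
  have i3 : (x + (((N : ℤ) - j) • e2 + (j : ℤ) • e3)).2.2 = x.2.2 + j := by
    simp [e2, e3]
  rw [i1, i2, i3]

/-- truncated commutator -/
noncomputable def KL (a b c : ℤ → Module.End ℂ W) (k : ℤ) (w : W) (L : ℕ) (x : G3) : W :=
  ∑ j ∈ range L, (tm a b k x.1 x.2.1 j (c x.2.2 w) - c x.2.2 (tm a b k x.1 x.2.1 j w))

theorem kill_KL (a b c : ℤ → Module.End ℂ W) (Nac Nbc : ℕ) (hac : Loc a c Nac)
    (hbc : Loc b c Nbc) (k : ℤ) (w : W) (L : ℕ) :
    ((sh W e2 - sh W e3) ^ Nbc) (((sh W e1 - sh W e3) ^ Nac) (KL a b c k w L)) = 0 := by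
  have hcomm : Commute ((sh W e2 - sh W e3) ^ Nbc) ((sh W e1 - sh W e3) ^ Nac) := by
    apply Commute.pow_pow
    exact ((sh_comm e2 e1).sub_left (sh_comm e3 e1)).sub_right
      ((sh_comm e2 e3).sub_left (sh_comm e3 e3))
  have hZ : ∀ F : G3 → W, ((sh W e1 - sh W e3) ^ Nac) F = 0 →
      ((sh W e2 - sh W e3) ^ Nbc) (((sh W e1 - sh W e3) ^ Nac) F) = 0 := by
    intro F hF
    rw [hF, map_zero]
  have hY : ∀ F : G3 → W, ((sh W e2 - sh W e3) ^ Nbc) F = 0 →
      ((sh W e2 - sh W e3) ^ Nbc) (((sh W e1 - sh W e3) ^ Nac) F) = 0 := by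
    intro F hF
    rw [← Module.End.mul_apply, hcomm.eq, Module.End.mul_apply, hF, map_zero]
  obtain ⟨F1, hF1⟩ : ∃ F1 : ℕ → G3 → W, F1 = fun (j : ℕ) (x : G3) => a (x.1 + (k - (j : ℤ)))
    (b (x.2.1 + (j : ℤ)) (c x.2.2 w) - c x.2.2 (b (x.2.1 + (j : ℤ)) w)) := ⟨_, rfl⟩
  obtain ⟨F2, hF2⟩ : ∃ F2 : ℕ → G3 → W, F2 = fun (j : ℕ) (x : G3) =>
    a (x.1 + (k - (j : ℤ))) (c x.2.2 (b (x.2.1 + (j : ℤ)) w)) -
      c x.2.2 (a (x.1 + (k - (j : ℤ))) (b (x.2.1 + (j : ℤ)) w)) := ⟨_, rfl⟩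
  obtain ⟨F3, hF3⟩ : ∃ F3 : ℕ → G3 → W, F3 = fun (j : ℕ) (x : G3) =>
    b (x.2.1 + (k - (j : ℤ)))
      (a (x.1 + (j : ℤ)) (c x.2.2 w) - c x.2.2 (a (x.1 + (j : ℤ)) w)) := ⟨_, rfl⟩
  obtain ⟨F4, hF4⟩ : ∃ F4 : ℕ → G3 → W, F4 = fun (j : ℕ) (x : G3) =>
    b (x.2.1 + (k - (j : ℤ))) (c x.2.2 (a (x.1 + (j : ℤ)) w)) -
      c x.2.2 (b (x.2.1 + (k - (j : ℤ))) (a (x.1 + (j : ℤ)) w)) := ⟨_, rfl⟩
  have k1 : ∀ j, ((sh W e2 - sh W e3) ^ Nbc) (((sh W e1 - sh W e3) ^ Nac) (F1 j)) = 0 := by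
    intro j
    apply hY
    apply killY b c Nbc hbc (fun m => a (m + (k - j))) (fun _ => w) j
    intro x
    rw [hF1]
  have k2 : ∀ j, ((sh W e2 - sh W e3) ^ Nbc) (((sh W e1 - sh W e3) ^ Nac) (F2 j)) = 0 := by
    intro j
    apply hZ
    apply killZ a c Nac hac (fun _ => LinearMap.id) (fun n => b (n + j) w) (k - j)
    intro x
    rw [hF2]
    rfl
  have k3 : ∀ j, ((sh W e2 - sh W e3) ^ Nbc) (((sh W e1 - sh W e3) ^ Nac) (F3 j)) = 0 := by
    intro j
    apply hZ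
    apply killZ a c Nac hac (fun n => b (n + (k - j))) (fun _ => w) j
    intro x
    rw [hF3]
  have k4 : ∀ j, ((sh W e2 - sh W e3) ^ Nbc) (((sh W e1 - sh W e3) ^ Nac) (F4 j)) = 0 := by
    intro j
    apply hY
    apply killY b c Nbc hbc (fun _ => LinearMap.id) (fun m => a (m + j) w) (k - j)
    intro x
    rw [hF4]
    rfl
  have hK : KL a b c k w L = ∑ j ∈ range L, cf k j • ((F1 j + F2 j) -
      ((-1 : ℂ) ^ k) • (F3 j + F4 j)) := by
    funext x
    rw [Finset.sum_apply]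
    unfold KL
    apply sum_congr rfl
    intro j _
    rw [Pi.smul_apply, Pi.sub_apply, Pi.add_apply, Pi.smul_apply, Pi.add_apply, hF1, hF2, hF3, hF4]
    simp only
    unfold tm
    rw [map_smul, map_sub, map_smul, ← smul_sub, add_sub_assoc, add_sub_assoc, map_sub, map_sub]
    congr 1
    rw [sub_add_sub_cancel, sub_add_sub_cancel, smul_sub]
    abel
  rw [hK, map_sum, map_sum]
  apply sum_eq_zero
  intro j _
  rw [map_smul, map_smul, map_sub, map_sub, map_smul, map_smul, map_add, map_add, map_add, map_add,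
    k1, k2, k3, k4]
  simp

/-- eventual equality -/
def EvEq (FL : ℕ → G3 → W) (F : G3 → W) : Prop := ∀ x, ∃ L0 : ℕ, ∀ L, L0 ≤ L → FL L x = F x

theorem EvEq.sub_sh {FL : ℕ → G3 → W} {F : G3 → W} (h : EvEq FL F) (e e' : G3) :
    EvEq (fun L => (sh W e - sh W e') (FL L)) ((sh W e - sh W e') F) := by
  intro x
  obtain ⟨L1, h1⟩ := h (x + e)
  obtain ⟨L2, h2⟩ := h (x + e')
  refine ⟨max L1 L2, fun L hL => ?_⟩
  show (sh W e - sh W e') (FL L) x = _
  rw [LinearMap.sub_apply, LinearMap.sub_apply, Pi.sub_apply, Pi.sub_apply, sh_apply, sh_apply,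
    sh_apply, sh_apply, h1 L (le_trans (le_max_left _ _) hL), h2 L (le_trans (le_max_right _ _) hL)]

theorem EvEq.pow_sh {FL : ℕ → G3 → W} {F : G3 → W} (h : EvEq FL F) (e e' : G3) (N : ℕ) :
    EvEq (fun L => ((sh W e - sh W e') ^ N) (FL L)) (((sh W e - sh W e') ^ N) F) := by
  induction N with
  | zero =>
    simp only [pow_zero, Module.End.one_apply]
    exact h
  | succ N ih =>
    have h1 := ih.sub_sh e e'
    simp only [pow_succ', Module.End.mul_apply]
    exact h1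

end kill

theorem main : S_RREC → S_RLOC → S_DONG := by
  intro hRREC hRLOC W _ _ a b c hab hac hbc k
  obtain ⟨Nab, hab⟩ := hab
  obtain ⟨Nac, hac⟩ := hac
  obtain ⟨Nbc, hbc⟩ := hbc
  refine ⟨Nbc + (Nac + (Nab - k).toNat), ?_⟩
  intro m n w
  -- the commutator
  obtain ⟨K, hKd⟩ : ∃ K : ℤ → G3 → W, K = fun k x =>
    R a b k x.1 x.2.1 (c.m x.2.2 w) - c.m x.2.2 (R a b k x.1 x.2.1 w) := ⟨_, rfl⟩
  have hK : ∀ k x, K k x = R a b k x.1 x.2.1 (c.m x.2.2 w) - c.m x.2.2 (R a b k x.1 x.2.1 w) := by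
    intro k x
    rw [hKd]
  have hrec : ∀ k, (sh W e1 - sh W e2) (K k) = K (k + 1) := by
    intro k
    funext x
    rw [LinearMap.sub_apply, Pi.sub_apply, sh_apply, sh_apply, hK, hK, hK, hRREC W a b k]
    have i1 : (x + e1).1 = x.1 + 1 := by simp [e1]
    have i2 : (x + e1).2.1 = x.2.1 := by simp [e1]
    have i3 : (x + e1).2.2 = x.2.2 := by simp [e1]
    have i4 : (x + e2).1 = x.1 := by simp [e2]
    have i5 : (x + e2).2.1 = x.2.1 + 1 := by simp [e2]
    have i6 : (x + e2).2.2 = x.2.2 := by simp [e2]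
    rw [i1, i2, i3, i4, i5, i6, LinearMap.sub_apply, LinearMap.sub_apply, map_sub]
    abel
  have hrecn : ∀ (t : ℕ) (k : ℤ), ((sh W e1 - sh W e2) ^ t) (K k) = K (k + t) := by
    intro t
    induction t with
    | zero =>
      intro k
      simp
    | succ t ih =>
      intro k
      rw [pow_succ, Module.End.mul_apply, hrec, ih]
      congr 1
      push_cast
      ring
  have hzero : ∀ k : ℤ, (Nab : ℤ) ≤ k → K k = 0 := by
    intro k hk
    funext x
    rw [hK, hRLOC W a b Nab hab k _ _ hk]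
    simp
  have hev : ∀ k, EvEq (KL a.m b.m c.m k w) (K k) := by
    intro k x
    obtain ⟨L1, h1⟩ := tm_support a b k x.1 x.2.1 (c.m x.2.2 w)
    obtain ⟨L2, h2⟩ := tm_support a b k x.1 x.2.1 w
    refine ⟨max L1 L2, fun L hL => ?_⟩
    rw [hK, R_apply a b k x.1 x.2.1 (c.m x.2.2 w) L
      (fun j hj => h1 j ((le_trans (le_max_left _ _) hL).trans hj)),
      R_apply a b k x.1 x.2.1 w L (fun j hj => h2 j ((le_trans (le_max_right _ _) hL).trans hj))]
    unfold KL
    rw [sum_sub_distrib, map_sum]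
  have hPK : ((sh W e2 - sh W e3) ^ Nbc) (((sh W e1 - sh W e3) ^ Nac) (K k)) = 0 := by
    have h1 := ((hev k).pow_sh e1 e3 Nac).pow_sh e2 e3 Nbc
    funext x
    obtain ⟨L0, h2⟩ := h1 x
    have h3 : ((sh W e2 - sh W e3) ^ Nbc) (((sh W e1 - sh W e3) ^ Nac)
        (KL a.m b.m c.m k w L0)) x = _ := h2 L0 le_rfl
    rw [kill_KL a.m b.m c.m Nac Nbc hac hbc k w L0] at h3
    exact h3.symm
  -- commuting operators
  have hc1 : Commute (sh W e1 - sh W e3) (sh W e1 - sh W e2) :=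
    ((sh_comm e1 e1).sub_left (sh_comm e3 e1)).sub_right
      ((sh_comm e1 e2).sub_left (sh_comm e3 e2))
  have hc2 : Commute (sh W e2 - sh W e3) (sh W e1 - sh W e3) :=
    ((sh_comm e2 e1).sub_left (sh_comm e3 e1)).sub_right
      ((sh_comm e2 e3).sub_left (sh_comm e3 e3))
  have hc3 : Commute (sh W e2 - sh W e3) (sh W e1 - sh W e2) :=
    ((sh_comm e2 e1).sub_left (sh_comm e3 e1)).sub_right
      ((sh_comm e2 e2).sub_left (sh_comm e3 e2))
  have hD : sh W e2 - sh W e3 = (sh W e1 - sh W e3) + (-1 : ℂ) • (sh W e1 - sh W e2) := by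
    refine LinearMap.ext fun F => funext fun x => ?_
    rw [LinearMap.sub_apply, LinearMap.add_apply, LinearMap.smul_apply, Pi.sub_apply, Pi.add_apply,
      Pi.smul_apply, neg_smul, one_smul, LinearMap.sub_apply, LinearMap.sub_apply, Pi.sub_apply,
      Pi.sub_apply]
    abel
  have hmain : ((sh W e2 - sh W e3) ^ (Nbc + (Nac + (Nab - k).toNat))) (K k) = 0 := by
    rw [pow_add, Module.End.mul_apply]
    have h1 : (sh W e2 - sh W e3) ^ (Nac + (Nab - k).toNat) =
        ((sh W e1 - sh W e3) + (-1 : ℂ) • (sh W e1 - sh W e2)) ^ (Nac + (Nab - k).toNat) := by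
      rw [← hD]
    rw [h1, (hc1.smul_right (-1 : ℂ)).add_pow, LinearMap.sum_apply, map_sum]
    apply sum_eq_zero
    intro s hs
    rw [mem_range] at hs
    rw [Module.End.mul_apply, Module.End.natCast_apply, map_nsmul, map_nsmul]
    have h2 : ((sh W e2 - sh W e3) ^ Nbc) (((sh W e1 - sh W e3) ^ s *
        ((-1 : ℂ) • (sh W e1 - sh W e2)) ^ (Nac + (Nab - k).toNat - s)) (K k)) = 0 := by
      rw [smul_pow, Module.End.mul_apply, LinearMap.smul_apply, map_smul, map_smul]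
      have h5 : ((sh W e2 - sh W e3) ^ Nbc) (((sh W e1 - sh W e3) ^ s)
          (((sh W e1 - sh W e2) ^ (Nac + (Nab - k).toNat - s)) (K k))) = 0 := by
        by_cases hs' : Nac ≤ s
        · obtain ⟨s', rfl⟩ := Nat.exists_eq_add_of_le hs'
          have h6 : (sh W e2 - sh W e3) ^ Nbc * (sh W e1 - sh W e3) ^ (Nac + s') *
              (sh W e1 - sh W e2) ^ (Nac + (Nab - k).toNat - (Nac + s')) =
              ((sh W e1 - sh W e2) ^ (Nac + (Nab - k).toNat - (Nac + s')) *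
                (sh W e1 - sh W e3) ^ s') *
              ((sh W e2 - sh W e3) ^ Nbc * (sh W e1 - sh W e3) ^ Nac) := by
            have q1 := hc1.pow_pow (Nac + s') (Nac + (Nab - k).toNat - (Nac + s'))
            have q2 := hc3.pow_pow Nbc (Nac + (Nab - k).toNat - (Nac + s'))
            have q3 := hc2.pow_pow Nbc s'
            rw [mul_assoc, q1.eq, ← mul_assoc, q2.eq, mul_assoc, mul_assoc]
            congr 1
            rw [add_comm Nac s', pow_add, ← mul_assoc, q3.eq, mul_assoc]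
          rw [← Module.End.mul_apply, ← Module.End.mul_apply, h6, Module.End.mul_apply,
            Module.End.mul_apply, Module.End.mul_apply, hPK, map_zero, map_zero]
        · rw [hrecn, hzero _ (by omega), map_zero, map_zero]
      rw [h5, smul_zero]
    rw [h2, smul_zero]
  have hfin := congrFun hmain (0, m, n)
  rw [sub_pow_apply, Pi.zero_apply] at hfin
  rw [← hfin]
  apply sum_congr rfl
  intro j _
  congr 1
  rw [hK]
  have i1 : (((0, m, n) : G3) + ((((Nbc + (Nac + (Nab - k).toNat) : ℕ) : ℤ) - (j : ℤ)) • e2 +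
      (j : ℤ) • e3) : G3) =
      (0, m + ((Nbc + (Nac + (Nab - k).toNat) : ℕ) : ℤ) - j, n + j) := by
    simp [e2, e3]
    ring
  rw [i1]
  rfl

end Pool.Agent.W85.VA.Dong
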